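import Mathlib
import Pool.Agent.TH457.EntD.TSI

/-!
# 3SUM-Indexing: space times entanglement is `n ^ 2 / T ^ 2` for every data structure

Two arrays with together at most `n` elements are preprocessed. The elements are taken from two fixed
sets of integers between `0` and `n ^ 2`, which are divided into `k` blocks of `u` elements each. The
data structure (`DS`) has `s` cells of `w` bits with arbitrary contents, the query `z` reads cells
adaptively and decides whether `z` is the sum of an element of the first array and an element of the
second array. The computation is free and not uniform, and everything may be random: every query is
answered correctly, with at most `T` probes, with probability at least `99 / 100`. The contents of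
each cell is described by a blackboard protocol with one player for each block of each of the two
arrays (every function of the two arrays can be described like this). A cell *entangles* a block of
the first array and a block of the second array if both of them write on the blackboard, and together
more than `b` bits.

Theorem: the expected total number of pairs of blocks entangled by the cells is at least
`n ^ 2 / (10 ^ 15 * (b * T) ^ 2)` for some arrays, for all `T ≤ n / (2 * 10 ^ 6 * b)`.

So truly subquadratic space and query time `n ^ o(1)` are impossible for all data structures each
cell of which entangles only `n ^ o(1)` pairs of blocks (on the average over the cells): for instance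
if every cell is an arbitrary function of one of the arrays (these cells are free), or depends on few
blocks only, which may be chosen adaptively, or is a sum (or any other function computed with few
bits for each block) of short summaries of all blocks, or a combination of all this. In general
`s * r ≥ n ^ 2 / (10 ^ 15 * (b * T) ^ 2)` if a cell entangles at most `r` pairs.

Proof. Let `m` be of the order `b T`, let `u = m ^ 2`, and put every integer into the arrays
independently with probability `1 / m`; there are `k` blocks in each array, where `k` is of the order
`n / m`. The query for the blocks `i` and `j` is the number which is a sum iff two sets `x`, `y` of
elements of the universe `{0, …, u - 1}`, which are the contents of the two blocks, intersect. Fix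
all other blocks. If no cell entangles the pair then every probe partitions the pairs `(x, y)` into
`2 ^ (3 b)` rectangles, so the answer is constant on the rectangles of a partition into at most
`2 ^ (3 b T)` rectangles. By the two-point inequality of the starting library (W959, which was used
there for the listing of intersections) a rectangle of measure `P` contains disjoint pairs of measure
at most `(1 - 1 / (22 m ^ 2)) ^ u * P ^ (m / (m + 1))`. So in each rectangle which is not tiny at
least a constant fraction of the pairs intersect: if the procedure says disjoint as often as it must
then it errs with more than constant probability. Therefore each of the `k ^ 2` pairs of blocks is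
entangled with constant probability.
-/

set_option autoImplicit false

namespace Pool.Agent.Results.MP_e016b3_lc.EntangledBlocks

open Pool.Agent.TH457.EntD.TSI

theorem result (n w b T : ℕ) (hb : 1 ≤ b) (hwb : w ≤ b) (hT : 1 ≤ T)
    (hn : 2 * 10 ^ 6 * (b * T) ≤ n) :
    ∃ k u : ℕ, k * u ≤ 2 * (b * T) * n ∧ 2 * u * k * k ≤ n ^ 2 ∧
      ∀ (s : ℕ) (Ω : Type) [Fintype Ω] (p : Ω → ℝ) (D : Ω → DS k u w s), Solves p D T n →
        ∀ R : ℝ, (∀ F : Fin (k + k) → Finset (Fin u), ∑ l, (F l).card ≤ n →
          ∑ ω, p ω * ∑ c, (((D ω).entangled b F c).card : ℝ) ≤ R) →
        (n : ℝ) ^ 2 ≤ 10 ^ 15 * (b * T) ^ 2 * R :=
  main n w b T hb hwb hT hn

end Pool.Agent.Results.MP_e016b3_lc.EntangledBlocks
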